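import Pool.Agent.H2.LH.Logic
import Pool.Agent.H85.Forcing.OSLos

/-!
# Boolean values of `Core1` and `Core2`, and transfer to the quotient model
-/

universe u

namespace H2.LH
open H85.Forcing H85.Forcing.BN H9.PF

variable {B : Type u} [CompleteBooleanAlgebra B]

def inAccB (C c : BN B) : B :=
  (⨆ b, mem b c) ⊓ ((⨅ b, mem b c ⇨ ⨆ y, mem y C ⊓ (mem y c ⊓ mem b y)) ⊓
    ⨆ y, mem y C ⊓ mem c y)

def ladB (C a : BN B) : B :=
  (⨅ x, mem x C ⇨ mem x a) ⊓ ((⨅ x, mem x a ⇨ ⨆ y, mem y C ⊓ mem x y) ⊓ ⨅ b, (inAccB C b)ᶜ)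

def ladSeqB (kap c : BN B) : B :=
  ⨅ a, mem a kap ⇨ (isLimB a ⇨
    ⨆ C, (⨅ D, (rel c a D ⇨ beq D C) ⊓ (beq D C ⇨ rel c a D)) ⊓ ladB C a)

def core1B (kap : BN B) : B :=
  ⨆ c, ladSeqB kap c ⊓
    ⨅ b, ⨅ i, (⨅ x, mem x kap ⇨ ⨆ y, mem y kap ⊓ (rel b i y ⊓ mem x y)) ⇨
      ⨅ d, isClubB kap d ⇨
        ⨆ a, mem a kap ⊓ (mem a d ⊓ (isLimB a ⊓ ⨅ C, rel c a C ⇨ ⨅ x, mem x a ⇨
          ⨆ y, mem y C ⊓ (rel b i y ⊓ mem x y)))

def core2B (kap om : BN B) : B :=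
  ⨅ c, ladSeqB kap c ⇨ ⨆ b, ⨆ d,
    (⨅ i, mem i kap ⇨ ⨅ x, mem x kap ⇨ ⨆ y, mem y kap ⊓ (rel b i y ⊓ mem x y)) ⊓
    (isClubB kap d ⊓
      ⨅ a, mem a kap ⇨ (mem a d ⇨ (isLimB a ⊓ ⨆ i, mem i om ⊓ (mem i a ⊓ ⨅ C, rel c a C ⇨
        ⨆ x, mem x a ⊓ ⨅ y, mem y C ⇨ (rel b i y ⇨ (mem x y)ᶜ)))))

instance extC_inAccB {f k : BN B → BN B} [CongC f] [CongC k] :
    ExtC (fun t => inAccB (f t) (k t)) :=
  ⟨by unfold inAccB; exact ExtC.h⟩

instance (a : BN B) : ExtC (inAccB a) :=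
  ⟨(extC_inAccB (f := fun _ => a) (k := fun t => t)).h⟩

instance extC_ladB {f k : BN B → BN B} [CongC f] [CongC k] :
    ExtC (fun t => ladB (f t) (k t)) :=
  ⟨by unfold ladB; exact ExtC.h⟩

instance (a : BN B) : ExtC (ladB a) :=
  ⟨(extC_ladB (f := fun _ => a) (k := fun t => t)).h⟩

instance extC_ladSeqB {f k : BN B → BN B} [CongC f] [CongC k] :
    ExtC (fun t => ladSeqB (f t) (k t)) :=
  ⟨by unfold ladSeqB; exact ExtC.h⟩

instance (a : BN B) : ExtC (ladSeqB a) :=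
  ⟨(extC_ladSeqB (f := fun _ => a) (k := fun t => t)).h⟩

/-! ### transfer -/

variable (U : Ult B)

set_option linter.unusedSimpArgs false

theorem inAcc_iff (C c : BN B) : InAcc (ME U) (cl U C) (cl U c) ↔ U.T (inAccB C c) := by
  simp only [InAcc, inAccB, T_iInf', T_iSup', U.inf, U.sup, U.himp, U.compl,
    cl_forall U, cl_exists U, ME_cl, cl_eq]

theorem lad_iff (C a : BN B) : Lad (ME U) (cl U C) (cl U a) ↔ U.T (ladB C a) := by
  simp only [Lad, ladB, T_iInf', T_iSup', U.inf, U.sup, U.himp, U.compl,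
    cl_forall U, cl_exists U, ME_cl, cl_eq, inAcc_iff]

theorem ladSeq_iff (k c : BN B) : LadSeq (ME U) (cl U k) (cl U c) ↔ U.T (ladSeqB k c) := by
  simp only [LadSeq, ladSeqB, T_iInf', T_iSup', U.inf, U.sup, U.himp, U.compl,
    cl_forall U, cl_exists U, ME_cl, cl_eq, lad_iff, isLim_iff, rel_iff,
    iff_iff_implies_and_implies]

set_option synthInstance.maxSize 4000 in
theorem core1_iff (k : BN B) : Core1 (ME U) (cl U k) ↔ U.T (core1B k) := by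
  simp only [Core1, core1B, T_iInf', T_iSup', U.inf, U.sup, U.himp, U.compl,
    cl_forall U, cl_exists U, ME_cl, cl_eq, ladSeq_iff, isLim_iff, rel_iff, H85.Forcing.BN.isClub_iff]

set_option synthInstance.maxSize 4000 in
theorem core2_iff (k o : BN B) : Core2 (ME U) (cl U k) (cl U o) ↔ U.T (core2B k o) := by
  simp only [Core2, core2B, T_iInf', T_iSup', U.inf, U.sup, U.himp, U.compl,
    cl_forall U, cl_exists U, ME_cl, cl_eq, ladSeq_iff, isLim_iff, rel_iff, H85.Forcing.BN.isClub_iff]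

end H2.LH
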