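import Pool.Agent.H2.LH.Wo
import Pool.Agent.H2.LH.CoreB
import Pool.Agent.H85.Forcing.Forced

/-!
# Forced statements: `ω₁` stays regular, and the first core statement
-/

open Set Ordinal

namespace H2.LH
open H85.Forcing H85.Forcing.BN H85.Forcing.RO H9.PF

variable {P : Type} [Preorder P]

theorem congr_left {p : P} {x y z : BN (RO P)} (h : p ∈ beq x y) (h' : p ∈ mem x z) :
    p ∈ mem y z :=
  le_iff_forces.1 (mem_congr_left (z := z) (g := beq x y ⊓ mem x z) inf_le_left inf_le_right) p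
    ⟨h, h'⟩

theorem congr_symm {p : P} {x y : BN (RO P)} (h : p ∈ beq x y) : p ∈ beq y x := by
  rwa [beq_symm]

theorem congr_right {p : P} {x y z : BN (RO P)} (h : p ∈ beq y z) (h' : p ∈ mem x y) :
    p ∈ mem x z :=
  le_iff_forces.1 (mem_congr_right (g := beq y z ⊓ mem x y) inf_le_left inf_le_right) p
    ⟨h, h'⟩

theorem congr_ext {p : P} {x y : BN (RO P)} (φ : BN (RO P) → RO P) [hφ : ExtC φ]
    (h : p ∈ beq x y) (h' : p ∈ φ x) : p ∈ φ y :=
  le_iff_forces.1 (hφ.h x y) p ⟨h, h'⟩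

theorem forces_ball {p : P} {f g : BN (RO P) → RO P} :
    p ∈ (⨅ x, f x ⇨ g x) ↔ ∀ x, ∀ q ≤ p, q ∈ f x → q ∈ g x := by
  rw [forces_iInf]; rfl

theorem forces_ball_setN {X : W → RO P} {φ : BN (RO P) → RO P} [hφ : ExtC φ] {p : P} :
    p ∈ (⨅ x, mem x (setN X) ⇨ φ x) ↔ ∀ x, ∀ q ≤ p, q ∈ X x → q ∈ φ (ordN x) := by
  rw [setN, ball_mk hφ.h, forces_iInf]
  rfl

theorem forces_bex_setN {X : W → RO P} {φ : BN (RO P) → RO P} [hφ : ExtC φ] {p : P} :
    p ∈ (⨆ x, mem x (setN X) ⊓ φ x) ↔ ∀ q ≤ p, ∃ r ≤ q, ∃ x, r ∈ X x ∧ r ∈ φ (ordN x) := by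
  rw [setN, bex_mk hφ.h, forces_iSup]
  rfl

/-- elements of the name of an ordinal -/
theorem mem_ordN_elim {p : P} {x : BN (RO P)} {k : W} (h : p ∈ mem x (ordN k)) :
    ∃ q ≤ p, ∃ j < k, q ∈ beq x (ordN j) := by
  rw [mem_ordN, forces_iSup] at h
  obtain ⟨q, hq, ⟨j, hj⟩, h⟩ := h p le_rfl
  exact ⟨q, hq, j, hj, h⟩

/-- every condition decides membership -/
theorem exists_decide (a : RO P) (p : P) : ∃ q ≤ p, q ∈ a ∨ q ∈ aᶜ := by
  by_cases h : ∃ q ≤ p, q ∈ a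
  · obtain ⟨q, hq, h⟩ := h
    exact ⟨q, hq, Or.inl h⟩
  · exact ⟨p, le_rfl, Or.inr (forces_compl.2 fun q hq h' => h ⟨q, hq, h'⟩)⟩

theorem not_both {a : RO P} {p : P} (h : p ∈ a) (h' : p ∈ aᶜ) : False :=
  forces_compl.1 h' p le_rfl h

theorem forces_isUncReg (ccc : ∀ A : Set P, (∀ p ∈ A, ∀ q ∈ A, (∃ r, r ≤ p ∧ r ≤ q) → p = q) →
    A.Countable) (p : P) : p ∈ (isUncRegB (kapN W) : RO P) := by
  obtain ⟨ω', hω, -⟩ := exists_om
  unfold isUncRegB
  simp only [forces_inf, forces_ball_kapN, forces_bex_kapN]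
  refine ⟨isOrdB_kapN, fun q _ => ⟨q, le_rfl, ω', ?_⟩, ?_⟩
  · rw [forces_isLimB]; exact hω
  · intro x
    rw [forces_iInf]
    intro f
    rw [forces_himp]
    intro q hq hf
    unfold isFunB at hf
    simp only [forces_inf, forces_ball_ordN, forces_bex_kapN] at hf ⊢
    intro q' hq'
    have h1 : ∀ u : Iio x, ∃ β : W, ∀ r ≤ q', ∃ s ≤ r, ∃ v < β,
        s ∈ (⨅ w, rel f (ordN u.1) w ⇨ beq w (ordN v) : RO P) := by
      intro u
      refine ccc_bound ccc q' (fun v s => s ∈ (⨅ w, rel f (ordN u.1) w ⇨ beq w (ordN v) : RO P))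
        (fun v q r hr h => h.down hr) ?_
      intro r hr
      obtain ⟨s, hs, v, h⟩ := hf u.1 u.2 r (hr.trans hq')
      exact ⟨s, hs, v, h.2⟩
    choose β hβ using h1
    have : Countable (Iio x) := (countable_Iio x).to_subtype
    obtain ⟨b, hb⟩ := exists_bound (countable_range β)
    refine ⟨q', le_rfl, b, fun u hu => ?_⟩
    rw [forces_iInf]
    intro w
    rw [forces_himp]
    intro s hs hw
    refine forces_of_dense fun s' hs' => ?_
    obtain ⟨t, ht, v, hv, h2⟩ := hβ ⟨u, hu⟩ s' (hs'.trans hs)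
    refine ⟨t, ht, ?_⟩
    have h3 : t ∈ beq w (ordN v) := forces_ball.1 h2 w t le_rfl (hw.down (ht.trans hs'))
    have h4 : t ∈ (mem (ordN v) (ordN b) : RO P) :=
      forces_mem_ordN.2 (hv.trans (hb _ ⟨_, rfl⟩))
    exact congr_left (congr_symm h3) h4

/-- value of: `x` is the first limit ordinal -/
def isOmB {B : Type} [CompleteBooleanAlgebra B] (x : BN B) : B :=
  isLimB x ⊓ ⨅ y, mem y x ⇨ (isLimB y)ᶜ

theorem isOm_iff {B : Type} [CompleteBooleanAlgebra B] (U : Ult B) (x : BN B) :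
    IsOm (ME U) (cl U x) ↔ U.T (isOmB x) := by
  simp only [IsOm, isOmB, T_iInf', U.inf, U.himp, U.compl, cl_forall U, ME_cl, isLim_iff]

theorem forces_isOm {ω' : W} (h : H9.PF.Lim ω' ∧ ∀ β < ω', ¬ H9.PF.Lim β) (p : P) :
    p ∈ (isOmB (ordN ω') : RO P) := by
  unfold isOmB
  rw [forces_inf, forces_isLimB, forces_ball_ordN]
  refine ⟨h.1, fun j hj => ?_⟩
  rw [forces_compl]
  intro q _ hq
  rw [forces_isLimB] at hq
  exact h.2 j hj hq

theorem forces_ladB {p : P} {X : W → RO P} {α : W} (hlt : ∀ q ≤ p, ∀ x, q ∈ X x → x < α)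
    (hcof : ∀ q ≤ p, ∀ γ < α, ∃ r ≤ q, ∃ x, γ < x ∧ r ∈ X x)
    (hfin : ∀ η < α, ∀ q ≤ p, ∃ r ≤ q, ∃ w : Finset W,
      ∀ x < η, (x ∈ w → r ∈ X x) ∧ (x ∉ w → r ∈ (X x)ᶜ)) :
    p ∈ ladB (setN X) (ordN α) := by
  classical
  unfold ladB
  rw [forces_inf, forces_inf]
  refine ⟨?_, ?_, ?_⟩
  · rw [forces_ball_setN]
    intro x q hq hx
    exact forces_mem_ordN.2 (hlt q hq x hx)
  · rw [forces_ball_ordN]
    intro γ hγ
    rw [forces_bex_setN]
    intro q hq
    obtain ⟨r, hr, x, hx, h⟩ := hcof q hq γ hγ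
    exact ⟨r, hr, x, h, forces_mem_ordN.2 hx⟩
  · rw [forces_iInf]
    intro b
    rw [forces_compl]
    intro q hq hacc
    have h0 : q ∈ (⨆ y, mem y (setN X) ⊓ mem b y : RO P) := by
      unfold inAccB at hacc
      exact hacc.2.2
    rw [forces_bex_setN] at h0
    obtain ⟨r, hr, y, hy, hby⟩ := h0 q le_rfl
    obtain ⟨s, hs, β, hβ, hbβ⟩ := mem_ordN_elim hby
    have hyα : y < α := hlt r (hr.trans hq) y hy
    have h1 : s ∈ inAccB (setN X) (ordN β) :=
      congr_ext (fun b => inAccB (setN X) b) hbβ (hacc.down (hs.trans hr))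
    unfold inAccB at h1
    have h2 : s ∈ (⨆ b, mem b (ordN β) ⊓ ⊤ : RO P) := by
      simp only [inf_top_eq]; exact h1.1
    rw [forces_bex_ordN] at h2
    obtain ⟨-, -, b0, hb0, -⟩ := h2 s le_rfl
    have h3 := h1.2.1
    change s ∈ (⨅ b, mem b (ordN β) ⇨ ⨆ y, mem y (setN X) ⊓ (mem y (ordN β) ⊓ mem b y) : RO P)
      at h3
    rw [forces_ball_ordN] at h3
    obtain ⟨t, ht, w, hw⟩ := hfin β (hβ.trans hyα) s (hs.trans (hr.trans hq))
    let w' : Finset W := insert b0 (w.filter fun x => x < β)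
    have hne : w'.Nonempty := ⟨b0, Finset.mem_insert_self _ _⟩
    let m := w'.max' hne
    have hm : m < β := by
      have h4 := w'.max'_mem hne
      rcases Finset.mem_insert.1 h4 with h | h
      · change w'.max' hne < β
        rw [h]; exact hb0
      · exact (Finset.mem_filter.1 h).2
    have h5 := h3 m hm
    rw [forces_bex_setN] at h5
    obtain ⟨u, hu, x, hx, hx2⟩ := h5 t ht
    obtain ⟨hx3, hx4⟩ := forces_inf.1 hx2
    rw [forces_mem_ordN] at hx3 hx4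
    by_cases hxw : x ∈ w
    · have h6 : x ≤ m := Finset.le_max' _ _ (Finset.mem_insert_of_mem
        (Finset.mem_filter.2 ⟨hxw, hx3⟩))
      exact absurd hx4 (not_lt.2 h6)
    · exact not_both hx (((hw x hx3).2 hxw).down hu)

/-- the name of the generic ladder system -/
noncomputable def cN (L : W → W → RO P) : BN (RO P) :=
  BN.mk W (fun α => opair (ordN α) (setN (L α))) (fun _ => ⊤)

theorem rel_cN (L : W → W → RO P) (α : W) (D : BN (RO P)) :
    rel (cN L) (ordN α) D = beq D (setN (L α)) := by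
  rw [rel, cN, mem_mk]
  apply le_antisymm
  · refine iSup_le fun β => ?_
    rw [top_inf_eq]
    by_cases h : α = β
    · subst h; exact opair_inj_right le_rfl
    · have h1 := opair_inj_left
        (le_rfl : beq (opair (ordN α) D) (opair (ordN β) (setN (L β))) ≤ _)
      rw [beq_ordN_of_ne h] at h1
      exact h1.trans bot_le
  · refine bex_intro α (le_inf le_top ?_)
    exact cong_opair brefl le_rfl

theorem forces_ladSeq_cN {L : W → W → RO P} (G : Good P L) (p : P) :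
    p ∈ ladSeqB (kapN W) (cN L) := by
  unfold ladSeqB
  rw [forces_ball_kapN]
  intro α
  rw [forces_himp]
  intro q _ hα
  rw [forces_isLimB] at hα
  refine forces_iSup_of (setN (L α)) (forces_inf.2 ⟨?_, ?_⟩)
  · rw [forces_iInf]
    intro D
    rw [rel_cN, himp_self, top_inf_eq]
    exact forces_top
  · exact forces_ladB (fun r _ x hx => G.L_lt r α x hx)
      (fun r _ γ hγ => G.L_cof α hα γ hγ r) (fun η hη r _ => G.L_fin α hα η hη r)

theorem forces_core1 {L : W → W → RO P} (G : Good P L) (p : P) : p ∈ (core1B (kapN W) : RO P) := by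
  unfold core1B
  refine forces_iSup_of (cN L) (forces_inf.2 ⟨forces_ladSeq_cN G p, ?_⟩)
  rw [forces_iInf]
  intro b
  rw [forces_iInf]
  intro i
  rw [forces_himp]
  intro p1 _ hb
  rw [forces_ball]
  intro d p2 hp2 hd
  have hb := hb.down hp2
  simp only [forces_ball_kapN, forces_bex_kapN] at hb
  unfold isClubB at hd
  simp only [forces_inf, forces_ball_kapN, forces_bex_kapN] at hd
  obtain ⟨hd1, hd2⟩ := hd
  refine forces_of_dense fun p3 hp3 => ?_
  -- the sequence of conditions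
  have hF : ∀ ξ : W, ∃ z : P × W, z.1 ≤ p3 ∧ ξ < z.2 ∧ z.1 ∈ rel b i (ordN z.2) := by
    intro ξ
    obtain ⟨r, hr, y, hy⟩ := hb ξ p3 hp3
    exact ⟨(r, y), hr, forces_mem_ordN.1 (forces_inf.1 hy).2, (forces_inf.1 hy).1⟩
  choose F hF1 hF2 hF3 using hF
  -- the ground model club
  have hg : ∀ ξ : W, ∃ β : W, ∀ q ≤ p3, ∃ r ≤ q, ∃ y < β, ξ < y ∧ r ∈ mem (ordN y) d := by
    intro ξ
    refine ccc_bound G.ccc p3 (fun y r => ξ < y ∧ r ∈ mem (ordN y) d)
      (fun y q r hr h => ⟨h.1, h.2.down hr⟩) ?_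
    intro q hq
    obtain ⟨r, hr, y, hy⟩ := hd1 ξ q (hq.trans hp3)
    exact ⟨r, hr, y, forces_mem_ordN.1 (forces_inf.1 hy).2, (forces_inf.1 hy).1⟩
  choose g hg using hg
  obtain ⟨α, hα, hgα, q, hq⟩ := G.hit F hF2 g
  obtain ⟨γ0, hγ0⟩ := hα.1
  obtain ⟨ξ0, -, -, r0, hr0q, hr0F, -⟩ := hq q le_rfl γ0 hγ0
  have hr0 : r0 ≤ p3 := hr0F.trans (hF1 ξ0)
  refine ⟨r0, hr0, forces_iSup_of (ordN α) ?_⟩
  simp only [forces_inf]
  refine ⟨forces_mem_kapN.2 trivial, ?_, (forces_isLimB α).2 hα, ?_⟩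
  · have h1 := forces_himp.1 (hd2 α) r0 (hr0.trans hp3) ((forces_isLimB α).2 hα)
    refine forces_himp.1 h1 r0 le_rfl ?_
    simp only [forces_ball_ordN, forces_bex_ordN, forces_inf]
    intro y hy s hs
    obtain ⟨t, ht, z, hz, hyz, h2⟩ := hg y s (hs.trans hr0)
    exact ⟨t, ht, z, hz.trans (hgα y hy), h2, forces_mem_ordN.2 hyz⟩
  · rw [forces_ball]
    intro C s hs hC
    rw [rel_cN] at hC
    refine congr_ext (fun C => ⨅ x, mem x (ordN α) ⇨ ⨆ y, mem y C ⊓ (rel b i y ⊓ mem x y))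
      (congr_symm hC) ?_
    simp only [forces_ball_ordN, forces_bex_setN, forces_inf]
    intro γ hγ s' hs'
    obtain ⟨ξ, h1, h2, t, ht, htF, htL⟩ := hq s' (hs'.trans (hs.trans hr0q)) γ hγ
    exact ⟨t, ht, (F ξ).2, htL, (hF3 ξ).down htF, forces_mem_ordN.2 h1⟩

end H2.LH
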