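import Pool.Agent.H2.LH.Forced

/-!
# The second core statement
-/

open Set Ordinal

namespace H2.LH
open H85.Forcing H85.Forcing.BN H85.Forcing.RO H9.PF

variable {P : Type} [Preorder P]

/-- a name of a cofinal subset of a limit ordinal without limit points is, below every level,
decided densely to be finite -/
theorem decide_ladB {p : P} {C : BN (RO P)} {α : W}
    (h : p ∈ ladB C (ordN α)) (η : W) (hη : η < α) :
    ∀ q ≤ p, ∃ r ≤ q, ∃ w : Finset W,
      ∀ x < η, (x ∈ w → r ∈ mem (ordN x) C) ∧ (x ∉ w → r ∈ (mem (ordN x) C)ᶜ) := by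
  classical
  unfold ladB at h
  obtain ⟨-, h2, h3⟩ := h
  change p ∈ (⨅ x, mem x (ordN α) ⇨ ⨆ y, mem y C ⊓ mem x y : RO P) at h2
  change p ∈ (⨅ b, (inAccB C b)ᶜ : RO P) at h3
  rw [forces_ball_ordN] at h2
  rw [forces_iInf] at h3
  revert hη
  induction η using WellFoundedLT.induction with
  | ind η ih =>
  intro hη q hq
  by_cases h0 : ∃ γ, γ < η
  · by_cases hL : ∀ γ < η, ∃ δ < η, γ < δ
    · -- limit case
      have hηL : H9.PF.Lim η := ⟨h0, hL⟩
      have h4 : q ∉ inAccB C (ordN η) := forces_compl.1 (h3 (ordN η)) q hq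
      have h5 : ¬ q ∈ (⨅ b, mem b (ordN η) ⇨ ⨆ y, mem y C ⊓ (mem y (ordN η) ⊓ mem b y) : RO P) := by
        intro h5
        apply h4
        unfold inAccB
        refine ⟨?_, h5, (h2 η hη).down hq⟩
        obtain ⟨γ, hγ⟩ := h0
        exact forces_iSup_of (ordN γ) (forces_mem_ordN.2 hγ)
      rw [forces_ball_ordN] at h5
      push Not at h5
      obtain ⟨β, hβ, h5⟩ := h5
      obtain ⟨q1, hq1, h6⟩ : ∃ q1 ≤ q, q1 ∈ (⨆ y, mem y C ⊓ (mem y (ordN η) ⊓ mem (ordN β) y) :
          RO P)ᶜ := by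
        by_contra hcon
        push Not at hcon
        apply h5
        refine forces_of_dense fun r hr => ?_
        have := hcon r hr
        rw [forces_compl] at this
        push Not at this
        obtain ⟨s, hs, h⟩ := this
        exact ⟨s, hs, h⟩
      obtain ⟨β', hβ', hββ'⟩ := hL β hβ
      obtain ⟨r, hr, w, hw⟩ := ih β' hβ' (hβ'.trans hη) q1 (hq1.trans hq)
      refine ⟨r, hr.trans hq1, w.filter (fun x => x < β'), fun x hx => ?_⟩
      by_cases hxβ : x < β'
      · refine ⟨fun h => (hw x hxβ).1 (Finset.mem_filter.1 h).1, fun h => (hw x hxβ).2 fun h' =>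
          h (Finset.mem_filter.2 ⟨h', hxβ⟩)⟩
      · refine ⟨fun h => absurd (Finset.mem_filter.1 h).2 hxβ, fun _ => ?_⟩
        rw [forces_compl]
        intro s hs hsx
        refine forces_compl.1 h6 s (hs.trans hr) (forces_iSup_of (ordN x) ?_)
        exact forces_inf.2 ⟨hsx, forces_inf.2 ⟨forces_mem_ordN.2 hx,
          forces_mem_ordN.2 (hββ'.trans_le (not_lt.1 hxβ))⟩⟩
    · -- successor case
      push Not at hL
      obtain ⟨γ, hγ, hγ2⟩ := hL
      obtain ⟨r, hr, w, hw⟩ := ih γ hγ (hγ.trans hη) q hq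
      obtain ⟨s, hs, h4⟩ := exists_decide (mem (ordN γ) C) r
      rcases h4 with h4 | h4
      · refine ⟨s, hs.trans hr, insert γ w, fun x hx => ?_⟩
        rcases (hγ2 x hx).lt_or_eq with h | h
        · refine ⟨fun h' => ((hw x h).1 ((Finset.mem_insert.1 h').resolve_left h.ne)).down hs,
            fun h' => ((hw x h).2 fun h'' => h' (Finset.mem_insert_of_mem h'')).down hs⟩
        · subst h
          exact ⟨fun _ => h4, fun h' => absurd (Finset.mem_insert_self _ _) h'⟩
      · refine ⟨s, hs.trans hr, w.erase γ, fun x hx => ?_⟩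
        rcases (hγ2 x hx).lt_or_eq with h | h
        · refine ⟨fun h' => ((hw x h).1 (Finset.mem_of_mem_erase h')).down hs,
            fun h' => ((hw x h).2 fun h'' => h' (Finset.mem_erase.2 ⟨h.ne, h''⟩)).down hs⟩
        · subst h
          exact ⟨fun h' => absurd h' (Finset.notMem_erase _ _), fun _ => h4⟩
  · refine ⟨q, le_rfl, ∅, fun x hx => absurd ⟨x, hx⟩ h0⟩

/-- the values of the ladder system coded by a name `c` -/
noncomputable def fc (c : BN (RO P)) (α x : W) : RO P :=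
  ladSeqB (kapN W) c ⊓ ⨆ C, rel c (ordN α) C ⊓ mem (ordN x) C

theorem ladSeqB_elim {p : P} {c : BN (RO P)} (h : p ∈ ladSeqB (kapN W) c) {α : W}
    (hα : H9.PF.Lim α) : ∀ q ≤ p, ∃ r ≤ q, ∃ C,
      (∀ D, ∀ s ≤ r, (s ∈ rel c (ordN α) D ↔ s ∈ beq D C)) ∧ r ∈ ladB C (ordN α) := by
  intro q hq
  unfold ladSeqB at h
  rw [forces_ball_kapN] at h
  have h1 := forces_himp.1 (h α) q hq ((forces_isLimB α).2 hα)
  obtain ⟨r, hr, C, hC⟩ := forces_iSup.1 h1 q le_rfl
  obtain ⟨hC1, hC2⟩ := forces_inf.1 hC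
  refine ⟨r, hr, C, fun D s hs => ?_, hC2⟩
  have h2 := forces_inf.1 (forces_iInf.1 hC1 D)
  exact ⟨forces_himp.1 h2.1 s hs, forces_himp.1 h2.2 s hs⟩

theorem ladF_fc (c : BN (RO P)) : LadF (fc c) := by
  intro α hα η hη p
  by_cases h : ∃ q ≤ p, q ∈ ladSeqB (kapN W) c
  · obtain ⟨q, hq, h⟩ := h
    obtain ⟨r, hr, C, hC1, hC2⟩ := ladSeqB_elim h hα q le_rfl
    have hrf : ∀ s ≤ r, ∀ x, s ∈ fc c α x ↔ s ∈ mem (ordN x) C := by
      intro s hs x
      constructor
      · intro h1
        obtain ⟨-, h2⟩ := forces_inf.1 h1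
        refine forces_of_dense fun t ht => ?_
        obtain ⟨u, hu, D, hD⟩ := forces_iSup.1 h2 t ht
        obtain ⟨hD1, hD2⟩ := forces_inf.1 hD
        exact ⟨u, hu, congr_right ((hC1 D u (hu.trans (ht.trans hs))).1 hD1) hD2⟩
      · intro h1
        refine forces_inf.2 ⟨h.down (hs.trans hr), forces_iSup_of C (forces_inf.2 ⟨?_, h1⟩)⟩
        exact (hC1 C s hs).2 (by rw [beq_refl]; exact forces_top)
    obtain ⟨s, hs, w, hw⟩ := decide_ladB hC2 η hη r le_rfl
    refine ⟨s, hs.trans (hr.trans hq), w, fun x hx => ⟨fun h' => ?_, fun h' => ?_⟩⟩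
    · exact (hrf s hs x).2 ((hw x hx).1 h')
    · rw [forces_compl]
      intro t ht ht2
      exact not_both ((hrf t (ht.trans hs) x).1 ht2) (((hw x hx).2 h').down ht)
  · refine ⟨p, le_rfl, ∅, fun x _ => ⟨fun h' => absurd h' (Finset.notMem_empty _), fun _ => ?_⟩⟩
    rw [forces_compl]
    intro q hq h'
    exact h ⟨q, hq, (forces_inf.1 h').1⟩

/-- the name of the club of all limit elements -/
noncomputable def dN : BN (RO P) := setN (fun α : W => (RO.ofProp (H9.PF.Lim α) : RO P))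

theorem forces_isClub_dN (p : P) : p ∈ (isClubB (kapN W) dN : RO P) := by
  unfold isClubB
  simp only [forces_inf, forces_ball_kapN, forces_bex_kapN]
  constructor
  · intro x q _
    obtain ⟨α, hα, hx⟩ := exists_lim_gt x
    refine ⟨q, le_rfl, α, ?_, forces_mem_ordN.2 hx⟩
    rw [dN, mem_setN]
    exact forces_ofProp.2 hα
  · intro x
    rw [forces_himp]
    intro q _ hx
    rw [forces_himp]
    intro r _ _
    rw [dN, mem_setN]
    rw [forces_isLimB] at hx
    exact forces_ofProp.2 hx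

theorem forces_core2 {L : W → W → RO P} (G : Good P L) {ω' : W} (e : ℕ → W)
    (he : Function.Injective e) (heω : ∀ n, e n < ω') (heL : ∀ α, H9.PF.Lim α → ∀ n, e n < α)
    (p : P) : p ∈ (core2B (kapN W) (ordN ω') : RO P) := by
  classical
  unfold core2B
  rw [forces_ball]
  intro c p1 _ hc
  obtain ⟨b, hb1, hb2⟩ := G.kill (fc c) (ladF_fc c)
  let R : W → W → RO P := fun i x => if h : ∃ n, e n = i then b h.choose x else ⊤
  have hR : ∀ n x, R (e n) x = b n x := by
    intro n x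
    have h : ∃ m, e m = e n := ⟨n, rfl⟩
    have h2 : h.choose = n := he h.choose_spec
    simp only [R]
    rw [dif_pos h, h2]
  refine forces_iSup_of (relN R) (forces_iSup_of dN ?_)
  rw [forces_inf, forces_inf]
  refine ⟨?_, forces_isClub_dN p1, ?_⟩
  · simp only [forces_ball_kapN, forces_bex_kapN, forces_inf, rel_relN, forces_mem_ordN]
    intro i x q _
    by_cases h : ∃ n, e n = i
    · obtain ⟨n, rfl⟩ := h
      obtain ⟨r, hr, y, hy, h2⟩ := hb1 n x q
      exact ⟨r, hr, y, by rw [hR]; exact h2, hy⟩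
    · obtain ⟨y, -, hy⟩ := exists_lim_gt x
      refine ⟨q, le_rfl, y, ?_, hy⟩
      simp only [R]
      rw [dif_neg h]
      exact forces_top
  · rw [forces_ball_kapN]
    intro α
    rw [forces_himp]
    intro q hq hα
    rw [dN, mem_setN, forces_ofProp] at hα
    rw [forces_inf]
    refine ⟨(forces_isLimB α).2 hα, forces_of_dense fun q1 hq1 => ?_⟩
    obtain ⟨q2, hq2, n, γ, hγ, h⟩ := hb2 α hα q1
    refine ⟨q2, hq2, forces_iSup_of (ordN (e n)) (forces_inf.2
      ⟨forces_mem_ordN.2 (heω n), forces_inf.2 ⟨forces_mem_ordN.2 (heL α hα n), ?_⟩⟩)⟩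
    rw [forces_ball]
    intro C s hs hC
    refine forces_iSup_of (ordN γ) (forces_inf.2 ⟨forces_mem_ordN.2 hγ, ?_⟩)
    rw [forces_ball]
    intro y t ht hyC
    rw [forces_himp]
    intro u hu hby
    rw [forces_compl]
    intro v hv hγy
    -- `y` is forced to be an element of `α`
    have hvc : v ∈ ladSeqB (kapN W) c :=
      hc.down (hv.trans (hu.trans (ht.trans (hs.trans (hq2.trans (hq1.trans hq))))))
    obtain ⟨v1, hv1, C', hC1, hC2⟩ := ladSeqB_elim hvc hα v le_rfl
    have hCC : v1 ∈ beq C C' :=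
      (hC1 C v1 le_rfl).1 (hC.down (hv1.trans (hv.trans (hu.trans ht))))
    have h3 : v1 ∈ (⨅ x, mem x C' ⇨ mem x (ordN α) : RO P) := by
      unfold ladB at hC2
      exact hC2.1
    have h4 : v1 ∈ mem y C' := congr_right hCC (hyC.down (hv1.trans (hv.trans hu)))
    obtain ⟨v2, hv2, y', hy', h5⟩ := mem_ordN_elim (forces_ball.1 h3 y v1 le_rfl h4)
    have h6 : v2 ∈ (mem (ordN γ) (ordN y') : RO P) :=
      congr_right h5 (hγy.down (hv2.trans hv1))
    have h7 : v2 ∈ rel (relN R) (ordN (e n)) (ordN y') :=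
      congr_ext (fun y => rel (relN R) (ordN (e n)) y) h5 (hby.down (hv2.trans (hv1.trans hv)))
    rw [rel_relN, hR] at h7
    have h8 : v2 ∈ fc c α y' := by
      refine forces_inf.2 ⟨hvc.down (hv2.trans hv1), forces_iSup_of C (forces_inf.2 ⟨?_, ?_⟩)⟩
      · exact hC.down (hv2.trans (hv1.trans (hv.trans (hu.trans ht))))
      · exact congr_left h5 (hyC.down (hv2.trans (hv1.trans (hv.trans hu))))
    have h9 := h y' (forces_mem_ordN.1 h6).le hy'
    exact not_both (forces_inf.2 ⟨h7, h8⟩)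
      (h9.down (hv2.trans (hv1.trans (hv.trans (hu.trans (ht.trans hs))))))

end H2.LH
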