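import Pool.Agent.H9.PF.PDefs

/-!
# First-order reduction inside a model of ZFC

With `Ω = κ` and `μ = ν = 2` the proxy principle is a statement about ladder systems.
-/

namespace H2.LH

open H85.Forcing H9.PF

variable {M : Type*} {E : M → M → Prop}

theorem not_self (h : IsZFC E) (x : M) : ¬ E x x := by
  obtain ⟨s, hs⟩ := h.pairing x x
  obtain ⟨y, hy, hy2⟩ := h.foundation s ⟨x, (hs x).2 (Or.inl rfl)⟩
  have e : y = x := by rcases (hs y).1 hy with h | h <;> exact h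
  subst e
  intro hxx
  exact hy2 y hxx hy

theorem pair_inj {a b c d p : M} (h : IsPair E a b p) (h' : IsPair E c d p) :
    (a = c ∧ b = d) ∨ (a = d ∧ b = c) := by
  have h1 : a = c ∨ a = d := (h' a).1 ((h a).2 (Or.inl rfl))
  have h2 : b = c ∨ b = d := (h' b).1 ((h b).2 (Or.inr rfl))
  have h3 : c = a ∨ c = b := (h c).1 ((h' c).2 (Or.inl rfl))
  have h4 : d = a ∨ d = b := (h d).1 ((h' d).2 (Or.inr rfl))
  rcases h1 with h1 | h1 <;> rcases h2 with h2 | h2 <;> rcases h3 with h3 | h3 <;>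
    rcases h4 with h4 | h4 <;> subst_vars <;> simp_all

theorem pair_unique (h : IsZFC E) {a b p q : M} (hp : IsPair E a b p) (hq : IsPair E a b q) :
    p = q := h.extensionality p q fun z => by rw [hp z, hq z]

theorem opair_inj {a b c d p : M} (h : IsOPair E a b p) (h' : IsOPair E c d p) :
    a = c ∧ b = d := by
  obtain ⟨s, t, hs, ht, hp⟩ := h
  obtain ⟨s', t', hs', ht', hp'⟩ := h'
  rcases pair_inj hp hp' with ⟨rfl, rfl⟩ | ⟨rfl, rfl⟩
  · have e1 : a = c := by rcases pair_inj hs hs' with ⟨e, -⟩ | ⟨e, -⟩ <;> exact e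
    subst e1
    rcases pair_inj ht ht' with ⟨-, e⟩ | ⟨e1, e2⟩
    · exact ⟨rfl, e⟩
    · exact ⟨rfl, e2.trans e1⟩
  · -- `s = {a} = {c, d}` and `t = {a, b} = {c}`
    rcases pair_inj hs ht' with ⟨e1, e2⟩ | ⟨e1, e2⟩ <;>
      rcases pair_inj ht hs' with ⟨e3, e4⟩ | ⟨e3, e4⟩ <;> subst_vars <;> exact ⟨rfl, rfl⟩

theorem opair_unique (h : IsZFC E) {a b p q : M} (hp : IsOPair E a b p) (hq : IsOPair E a b q) :
    p = q := by
  obtain ⟨s, t, hs, ht, hp⟩ := hp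
  obtain ⟨s', t', hs', ht', hq⟩ := hq
  have e1 := pair_unique h hs hs'
  have e2 := pair_unique h ht ht'
  subst e1 e2
  exact pair_unique h hp hq

theorem exists_opair (h : IsZFC E) (a b : M) : ∃ p, IsOPair E a b p := by
  obtain ⟨s, hs⟩ := h.pairing a a
  obtain ⟨t, ht⟩ := h.pairing a b
  obtain ⟨p, hp⟩ := h.pairing s t
  exact ⟨p, s, t, hs, ht, hp⟩

/-- the function with the single pair `(a, b)` -/
theorem exists_single (h : IsZFC E) (a b : M) : ∃ f, ∀ u v, Rel E f u v ↔ u = a ∧ v = b := by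
  obtain ⟨p, hp⟩ := exists_opair h a b
  obtain ⟨f, hf⟩ := h.pairing p p
  refine ⟨f, fun u v => ⟨?_, ?_⟩⟩
  · rintro ⟨q, hq, hqf⟩
    have e : q = p := by rcases (hf q).1 hqf with e | e <;> exact e
    subst e
    exact opair_inj hq hp
  · rintro ⟨rfl, rfl⟩
    exact ⟨p, hp, (hf p).2 (Or.inl rfl)⟩

theorem exists_zero (h : IsZFC E) : ∃ z, IsZero E z := by
  obtain ⟨x, ⟨e, -, he⟩, -⟩ := h.infinity
  exact ⟨e, he⟩

theorem zero_unique (h : IsZFC E) {x y : M} (hx : IsZero E x) (hy : IsZero E y) : x = y :=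
  h.extensionality x y fun z => iff_of_false (hx z) (hy z)

theorem isOne_iff (h : IsZFC E) {z o : M} (hz : IsZero E z) :
    IsOne E o ↔ ∀ x, E x o ↔ x = z := by
  constructor
  · rintro ⟨z', hz', ho⟩ x
    have e := zero_unique h hz' hz
    subst e
    rw [ho x]
    exact ⟨fun h => h.resolve_left (hz x), Or.inr⟩
  · intro ho
    refine ⟨z, hz, fun x => ?_⟩
    rw [ho x]
    exact ⟨Or.inr, fun h => h.resolve_left (hz x)⟩

theorem isTwo_iff (h : IsZFC E) {z o t : M} (hz : IsZero E z) (ho : ∀ x, E x o ↔ x = z) :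
    IsTwo E t ↔ ∀ x, E x t ↔ x = z ∨ x = o := by
  constructor
  · rintro ⟨o', ho', ht⟩ x
    rw [isOne_iff h hz] at ho'
    have e : o' = o := h.extensionality _ _ fun x => by rw [ho' x, ho x]
    subst e
    rw [ht x, ho' x]
  · intro ht
    refine ⟨o, (isOne_iff h hz).2 ho, fun x => ?_⟩
    rw [ht x, ho x]

/-- `0`, `1`, `2` -/
theorem exists_two (h : IsZFC E) : ∃ z o t : M, IsZero E z ∧ (∀ x, E x o ↔ x = z) ∧
    (∀ x, E x t ↔ x = z ∨ x = o) := by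
  obtain ⟨z, hz⟩ := exists_zero h
  obtain ⟨o, ho⟩ := h.pairing z z
  obtain ⟨t, ht⟩ := h.pairing z o
  exact ⟨z, o, t, hz, fun x => by rw [ho x, or_self], ht⟩

theorem isCard_two {z o t : M} (hz : IsZero E z) (ho : ∀ x, E x o ↔ x = z)
    (ht : ∀ x, E x t ↔ x = z ∨ x = o) : IsCard E t := by
  have hzo : z ≠ o := fun e => hz z (by rw [e, ho o]; exact e.symm)
  have hzT : IsTrans E z := fun y hy => absurd hy (hz y)
  have hoT : IsTrans E o := by
    intro y hy w hw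
    rw [ho y] at hy; subst hy
    exact absurd hw (hz w)
  refine ⟨⟨?_, ?_⟩, ?_⟩
  · intro y hy w hw
    rcases (ht y).1 hy with rfl | rfl
    · exact absurd hw (hz w)
    · rw [ht w]; exact Or.inl ((ho w).1 hw)
  · intro y hy
    rcases (ht y).1 hy with rfl | rfl
    · exact hzT
    · exact hoT
  · rintro y hy ⟨f, hf1, hf2⟩
    obtain ⟨u, hu, hfu⟩ := hf2 z ((ht z).2 (Or.inl rfl))
    obtain ⟨v, hv, hfv⟩ := hf2 o ((ht o).2 (Or.inr rfl))
    rcases (ht y).1 hy with rfl | rfl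
    · exact hz u hu
    · have e : u = v := by rw [ho] at hu hv; rw [hu, hv]
      rw [e] at hfu
      exact hzo (hf1 v hv _ _ hfu hfv)

/-- `C` is a cofinal subset of `a` without limit points -/
def Lad (E : M → M → Prop) (C a : M) : Prop :=
  (∀ x, E x C → E x a) ∧ (∀ x, E x a → ∃ y, E y C ∧ E x y) ∧ ∀ b, ¬ InAcc E C b

/-- `c` codes a ladder system -/
def LadSeq (E : M → M → Prop) (kap c : M) : Prop :=
  ∀ a, E a kap → IsLim E a → ∃ C, (∀ D, Rel E c a D ↔ D = C) ∧ Lad E C a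

/-- some ladder system meets every unbounded set, stationarily often -/
def Core1 (E : M → M → Prop) (kap : M) : Prop :=
  ∃ c, LadSeq E kap c ∧
    ∀ b i, (∀ x, E x kap → ∃ y, E y kap ∧ (Rel E b i y ∧ E x y)) → ∀ d, IsClub E kap d →
      ∃ a, E a kap ∧ (E a d ∧ (IsLim E a ∧ ∀ C, Rel E c a C → ∀ x, E x a →
        ∃ y, E y C ∧ (Rel E b i y ∧ E x y)))

/-- for every ladder system there are `ω` unbounded sets which it never meets simultaneously -/
def Core2 (E : M → M → Prop) (kap om : M) : Prop :=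
  ∀ c, LadSeq E kap c → ∃ b d,
    (∀ i, E i kap → ∀ x, E x kap → ∃ y, E y kap ∧ (Rel E b i y ∧ E x y)) ∧
    (IsClub E kap d ∧
      ∀ a, E a kap → E a d → IsLim E a ∧ ∃ i, E i om ∧ (E i a ∧ ∀ C, Rel E c a C →
        ∃ x, E x a ∧ ∀ y, E y C → Rel E b i y → ¬ E x y))

theorem cardLt_of_unique (h : IsZFC E) {z o t c a C : M}
    (ho : ∀ x, E x o ↔ x = z) (ht : ∀ x, E x t ↔ x = z ∨ x = o)
    (hC : ∀ D, Rel E c a D ↔ D = C) : CardLt E c a t := by
  obtain ⟨f, hf⟩ := exists_single h C z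
  refine ⟨o, (ht o).2 (Or.inr rfl), f, ?_, ?_⟩
  · intro D hD
    rw [hC] at hD; subst hD
    exact ⟨z, (ho z).2 rfl, (hf _ _).2 ⟨rfl, rfl⟩, fun w hw => ((hf _ _).1 hw).2⟩
  · intro D D' v hD hD' _ _
    rw [hC] at hD hD'
    rw [hD, hD']

theorem unique_of_cardLt {z o t c a : M} (hz : IsZero E z)
    (ho : ∀ x, E x o ↔ x = z) (ht : ∀ x, E x t ↔ x = z ∨ x = o)
    (h : CardLt E c a t) {C D : M} (hC : Rel E c a C) (hD : Rel E c a D) : C = D := by
  obtain ⟨b, hb, f, hf1, hf2⟩ := h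
  obtain ⟨v, hv, hfv, -⟩ := hf1 C hC
  obtain ⟨w, hw, hfw, -⟩ := hf1 D hD
  have e : v = w := by
    rcases (ht b).1 hb with rfl | rfl
    · exact absurd hv (hz v)
    · rw [ho] at hv hw
      rw [hv, hw]
  subst e
  exact hf2 C D v hC hD hfv hfw

theorem isSup_of_lad {C a : M} (ha : IsLim E a) (h : Lad E C a) : IsSup E C a :=
  ⟨ha.1, fun y hy => Or.inl (h.1 y hy), fun b hb => by
    obtain ⟨y, hy, hby⟩ := h.2.1 b hb
    exact ⟨y, hy, hby⟩⟩

theorem pminus_one (h : IsZFC E) {kap z o t : M} (hkap : IsOrd E kap) (hz : IsZero E z)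
    (ho : ∀ x, E x o ↔ x = z) (ht : ∀ x, E x t ↔ x = z ∨ x = o) (hc : Core1 E kap)
    (R : M → M → Prop) : PMinus E kap t R o t := by
  obtain ⟨c, hc1, hc2⟩ := hc
  refine ⟨c, ?_, ?_⟩
  · intro a ha hal
    obtain ⟨C, hC, hL⟩ := hc1 a ha hal
    refine ⟨?_, ⟨C, (hC C).2 rfl⟩, cardLt_of_unique h ho ht hC, ?_⟩
    · intro D hD
      rw [hC] at hD; subst hD
      obtain ⟨x, hx⟩ := hal.2.1
      obtain ⟨y, hy, -⟩ := hL.2.1 x hx
      exact ⟨⟨y, hy⟩, fun y hy => hkap.1 a ha y (hL.1 y hy), isSup_of_lad hal hL,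
        fun h' => not_self h a (hL.1 a h'), fun b hb => absurd hb (hL.2.2 b)⟩
    · intro D hD b hb
      rw [hC] at hD; subst hD
      exact absurd hb (hL.2.2 b)
  · intro b hb d hd
    have hb' : ∀ x, E x kap → ∃ y, E y kap ∧ (Rel E b z y ∧ E x y) := by
      intro x hx
      obtain ⟨y, h1, h2, h3⟩ := hb z ((ho z).2 rfl) x hx
      exact ⟨y, h1, h2, h3⟩
    obtain ⟨a, ha, had, hal, hC⟩ := hc2 b z hb' d hd
    obtain ⟨C, hC1, hL⟩ := hc1 a ha hal
    refine ⟨a, ha, had, cardLt_of_unique h ho ht hC1, ?_⟩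
    intro D hD i hi _
    have e := (hC1 D).1 hD
    subst e
    rw [ho] at hi; subst hi
    refine ⟨hal.1, fun y hy => Or.inl (hL.1 y hy.1.1), fun x hx => ?_⟩
    obtain ⟨y, hy, hby, hxy⟩ := hC D hD x hx
    exact ⟨y, ⟨⟨hy, hL.2.2 y⟩, hkap.1 a ha y (hL.1 y hy), hby⟩, hxy⟩

theorem ladSeq_of_isSeq {kap z o t c : M} (hkap : IsOrd E kap)
    (hz : IsZero E z) (ho : ∀ x, E x o ↔ x = z) (ht : ∀ x, E x t ↔ x = z ∨ x = o)
    (R : M → M → Prop) (hc : IsSeq E kap t (OmegaRel E R kap) c) : LadSeq E kap c := by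
  intro a ha hal
  obtain ⟨h1, ⟨C, hC⟩, h3, h4⟩ := hc a ha hal
  refine ⟨C, fun D => ⟨fun hD => unique_of_cardLt hz ho ht h3 hD hC, fun e => by rwa [e]⟩, ?_⟩
  obtain ⟨hne, hsub, hsup, hna, hacc⟩ := h1 C hC
  have hCa : ∀ x, E x C → E x a := by
    intro x hx
    rcases hsup.2.1 x hx with h | h
    · exact h
    · subst h; exact absurd hx hna
  refine ⟨hCa, fun x hx => ?_, fun b hb => ?_⟩
  · obtain ⟨y, hy, hxy⟩ := hsup.2.2 x hx
    exact ⟨y, hy, hxy⟩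
  · obtain ⟨D, hD, -, hR⟩ := h4 C hC b hb
    obtain ⟨hb1, hb2, y, hyC, hby⟩ := hb
    have hyk : E y kap := hsub y hyC
    have hbk : E b kap := hkap.1 y hyk b hby
    have hbO : IsOrd E b := by
      refine ⟨hkap.2 b hbk, fun w hw => hkap.2 w (hkap.1 b hbk w hw)⟩
    have hbL : IsLim E b := ⟨hbO, hb1, fun w hw => by
      obtain ⟨y, -, h1, h2⟩ := hb2 w hw
      exact ⟨y, h1, h2⟩⟩
    obtain ⟨-, -, hsupD, -, -⟩ := (hc b hbk hbL).1 D hD
    exact hR b hsupD hbk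

theorem not_pminus {kap om th z o t : M} (hkap : IsOrd E kap)
    (hz : IsZero E z) (ho : ∀ x, E x o ↔ x = z) (ht : ∀ x, E x t ↔ x = z ∨ x = o)
    (hc : Core2 E kap om) (hth1 : ∀ x, E x om → E x th) (hth2 : ∀ x, E x th → E x kap)
    (R : M → M → Prop) : ¬ PMinus E kap t (OmegaRel E R kap) th t := by
  rintro ⟨c, hc1, hc2⟩
  have hL := ladSeq_of_isSeq hkap hz ho ht R hc1
  obtain ⟨b, d, hb, hd, hbd⟩ := hc c hL
  obtain ⟨a, ha, had, -, hC⟩ := hc2 b (fun i hi x hx => by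
    obtain ⟨y, h1, h2, h3⟩ := hb i (hth2 i hi) x hx
    exact ⟨y, h1, h2, h3⟩) d hd
  obtain ⟨hal, i, hi, hia, h1⟩ := hbd a ha had
  obtain ⟨C, hCa⟩ := (hc1 a ha hal).2.1
  obtain ⟨x, hx, h2⟩ := h1 C hCa
  obtain ⟨-, -, h3⟩ := hC C hCa i (hth1 i hi) hia
  obtain ⟨y, ⟨hy1, hy2, hy3⟩, hxy⟩ := h3 x hx
  exact h2 y hy1.1 hy3 hxy

end H2.LH
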