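import Pool.Agent.H2.LH.Forced2

/-!
# The forcing half: from `Good P L` to a model of ZFC
-/

namespace H2.LH
open H85.Forcing H85.Forcing.BN H85.Forcing.RO H9.PF

/-- Forcing half. Here `Ω = κ`, so every member `C` of a `(κ, 2, ^ΩR)`-sequence has `acc(C) = ∅`,
whatever the relation `R` is. -/
theorem model_of_good {P : Type} [Preorder P] {L : W → W → RO P} (G : Good P L) :
    ∃ (M : Type 1) (E : M → M → Prop), IsZFC E ∧ ∃ kap om one two : M,
      IsUncReg E kap ∧ IsOm E om ∧ IsOne E one ∧ IsTwo E two ∧ IsCard E two ∧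
      ∀ R : M → M → Prop,
        PMinus E kap two (OmegaRel E R kap) one two ∧
        ¬ PMinus E kap two (OmegaRel E R kap) om two ∧
        ¬ PMinus E kap two (OmegaRel E R kap) kap two := by
  have hne : Nonempty P := G.nonempty
  obtain ⟨U⟩ := exists_ult (RO P)
  have hT : ∀ {a : RO P}, (∀ p, p ∈ a) → U.T a := fun h => by
    rw [eq_top_iff_forces.2 h]; exact U.top
  have hZ : IsZFC (ME U) := isZFC U
  obtain ⟨ω', hω, hω2⟩ := exists_om
  obtain ⟨e, he, heL⟩ := exists_nat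
  obtain ⟨z, o, t, hz, ho, ht⟩ := exists_two hZ
  have hU : IsUncReg (ME U) (cl U (kapN W)) :=
    (isUncReg_iff U _).2 (hT (forces_isUncReg G.ccc))
  have hO : IsOm (ME U) (cl U (ordN ω')) := (isOm_iff U _).2 (hT (forces_isOm ⟨hω, hω2⟩))
  have hok : ME U (cl U (ordN ω')) (cl U (kapN W)) := by
    rw [ME_cl, mem_ordN_kapN]; exact U.top
  have h1 : Core1 (ME U) (cl U (kapN W)) := (core1_iff U _).2 (hT (forces_core1 G))
  have h2 : Core2 (ME U) (cl U (kapN W)) (cl U (ordN ω')) :=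
    (core2_iff U _ _).2 (hT (forces_core2 G e he (heL ω' hω) heL))
  have hsub : ∀ x, ME U x (cl U (ordN ω')) → ME U x (cl U (kapN W)) :=
    fun x hx => hU.1.1 _ hok x hx
  refine ⟨MQ U, ME U, hZ, cl U (kapN W), cl U (ordN ω'), o, t, hU, hO, (isOne_iff hZ hz).2 ho,
    (isTwo_iff hZ hz ho).2 ht, isCard_two hz ho ht, fun R => ⟨?_, ?_, ?_⟩⟩
  · exact pminus_one hZ hU.1 hz ho ht h1 _
  · exact not_pminus hU.1 hz ho ht h2 (fun x hx => hx) hsub R
  · exact not_pminus hU.1 hz ho ht h2 hsub (fun x hx => hx) R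

end H2.LH
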