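import Pool.Agent.H9.PF.Interface

/-!
# The well-order `W` of type `ω₁`, and the bounding lemma for ccc forcing notions
-/

open Set Ordinal

namespace H2.LH
open H85.Forcing H85.Forcing.RO H9.PF

/-- a limit element above `x` -/
theorem exists_lim_gt (x : W) : ∃ α, Lim α ∧ x < α := by
  classical
  have h1 : ∀ y : W, ∃ z : W, y < z := fun y => by
    obtain ⟨b, hb⟩ := exists_bound (countable_singleton y)
    exact ⟨b, hb y rfl⟩
  choose s hs using h1
  let u : ℕ → W := fun n => s^[n] x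
  have hu : ∀ n, u n < u (n + 1) := fun n => by
    simp only [u, Function.iterate_succ_apply']
    exact hs _
  obtain ⟨b, hb⟩ := exists_bound (countable_range u)
  have hne : ({b : W | ∀ n, u n < b}).Nonempty := ⟨b, fun n => hb _ ⟨n, rfl⟩⟩
  let α := wellFounded_lt.min _ hne
  have hα : ∀ n, u n < α := wellFounded_lt.min_mem _ hne
  refine ⟨α, ⟨⟨u 0, hα 0⟩, fun γ hγ => ?_⟩, hα 0⟩
  have h2 : γ ∉ {b : W | ∀ n, u n < b} := fun h => wellFounded_lt.not_lt_min _ h hγ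
  simp only [mem_ofPred_eq, not_forall, not_lt] at h2
  obtain ⟨n, hn⟩ := h2
  exact ⟨u (n + 1), hα _, hn.trans_lt (hu n)⟩

/-- the first limit element -/
theorem exists_om : ∃ ω' : W, Lim ω' ∧ ∀ β < ω', ¬ Lim β := by
  have h0 : Nonempty W := by
    obtain ⟨b, -⟩ := exists_bound (s := (∅ : Set W)) countable_empty
    exact ⟨b⟩
  obtain ⟨x⟩ := h0
  obtain ⟨α, hα, -⟩ := exists_lim_gt x
  have hne : ({α : W | Lim α}).Nonempty := ⟨α, hα⟩
  exact ⟨wellFounded_lt.min _ hne, wellFounded_lt.min_mem _ hne,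
    fun β hβ h => wellFounded_lt.not_lt_min {α : W | Lim α} (x := β) h hβ⟩

/-- the finite elements of `W` -/
theorem exists_nat : ∃ e : ℕ → W, Function.Injective e ∧ ∀ α, Lim α → ∀ n, e n < α := by
  classical
  have h1 : ∀ y : W, ({z : W | y < z}).Nonempty := fun y => by
    obtain ⟨b, hb⟩ := exists_bound (countable_singleton y)
    exact ⟨b, hb y rfl⟩
  have h0 : (univ : Set W).Nonempty := by
    obtain ⟨b, -⟩ := exists_bound (s := (∅ : Set W)) countable_empty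
    exact ⟨b, trivial⟩
  let s : W → W := fun y => wellFounded_lt.min _ (h1 y)
  have hs : ∀ y, y < s y := fun y => wellFounded_lt.min_mem _ (h1 y)
  have hs2 : ∀ y z, y < z → s y ≤ z := fun y z hz =>
    not_lt.1 (wellFounded_lt.not_lt_min _ (x := z) hz)
  let e : ℕ → W := fun n => s^[n] (wellFounded_lt.min _ h0)
  have he : ∀ n, e (n + 1) = s (e n) := fun n => by
    simp only [e, Function.iterate_succ_apply']
  refine ⟨e, (strictMono_nat_of_lt_succ fun n => by rw [he]; exact hs _).injective, ?_⟩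
  intro α hα n
  induction n with
  | zero =>
    obtain ⟨γ, hγ⟩ := hα.1
    have : e 0 ≤ γ := not_lt.1 (wellFounded_lt.not_lt_min univ (x := γ) trivial)
    exact this.trans_lt hγ
  | succ n ih =>
    obtain ⟨δ, hδ, h2⟩ := hα.2 _ ih
    rw [he]
    exact (hs2 _ _ h2).trans_lt hδ

variable {P : Type} [Preorder P]

/-- **Bounding lemma.** -/
theorem ccc_bound (ccc : ∀ A : Set P, (∀ p ∈ A, ∀ q ∈ A, (∃ r, r ≤ p ∧ r ≤ q) → p = q) →
    A.Countable) (p : P) (φ : W → P → Prop) (hφ : ∀ x q r, r ≤ q → φ x q → φ x r)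
    (h : ∀ q ≤ p, ∃ r ≤ q, ∃ x, φ x r) :
    ∃ β : W, ∀ q ≤ p, ∃ r ≤ q, ∃ x < β, φ x r := by
  classical
  let D : Set P := {r | r ≤ p ∧ ∃ x, φ x r}
  let S : Set (Set P) := {A | A ⊆ D ∧ ∀ p ∈ A, ∀ q ∈ A, (∃ r, r ≤ p ∧ r ≤ q) → p = q}
  obtain ⟨A, hA⟩ := zorn_subset S (by
    intro c hcS hc
    refine ⟨⋃₀ c, ⟨sUnion_subset fun s hs => (hcS hs).1, ?_⟩, fun s hs => subset_sUnion_of_mem hs⟩
    rintro p ⟨s, hs, hps⟩ q ⟨t, ht, hqt⟩ hpq
    rcases hc.total hs ht with h | h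
    · exact (hcS ht).2 p (h hps) q hqt hpq
    · exact (hcS hs).2 p hps q (h hqt) hpq)
  have hAS : A ∈ S := hA.prop
  have hct : A.Countable := ccc A hAS.2
  have h1 : ∀ a : A, ∃ x, φ x a.1 := fun a => (hAS.1 a.2).2
  choose x hx using h1
  have : Countable A := hct.to_subtype
  obtain ⟨β, hβ⟩ := exists_bound (countable_range x)
  refine ⟨β, fun q hq => ?_⟩
  obtain ⟨r, hr, y, hy⟩ := h q hq
  have h2 : ∃ a ∈ A, ∃ s, s ≤ a ∧ s ≤ r := by
    by_contra hcon
    push Not at hcon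
    have hr' : r ∉ A := fun h => hcon r h r le_rfl le_rfl
    have h3 : insert r A ∈ S := by
      refine ⟨insert_subset ⟨hr.trans hq, y, hy⟩ hAS.1, ?_⟩
      rintro a (rfl | ha) b (rfl | hb) ⟨s, hs1, hs2⟩
      · rfl
      · exact absurd hs1 (hcon b hb s hs2)
      · exact absurd hs2 (hcon a ha s hs1)
      · exact hAS.2 a ha b hb ⟨s, hs1, hs2⟩
    exact hr' (hA.le_of_ge h3 (subset_insert r A) (mem_insert r A))
  obtain ⟨a, ha, s, hs1, hs2⟩ := h2
  exact ⟨s, hs2.trans hr, x ⟨a, ha⟩, hβ _ ⟨_, rfl⟩, hφ _ _ _ hs1 (hx ⟨a, ha⟩)⟩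

end H2.LH
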